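import Pool.Agent.Run7.h708.TF.Core
set_option autoImplicit false

/-!
# Toads and Frogs: soundness of the certificate checker
-/

namespace Run7.h708.TF

open Sq

/-- the game `G - 1 - *` (and, at the positions `(w, (m, false))`, the game `G - 1`) -/
abbrev RS : Ruleset (List Sq × (Bool × Bool)) := toadsAndFrogs.add (one.add star).neg

/-- Left wins when Right moves first -/
def Good (st : List Sq × (Bool × Bool)) : Prop :=
  ∀ st', RS.right st st' → WinsFirst RS.left RS.right st'

lemma right_cases {w : List Sq} {m s : Bool} {st' : List Sq × (Bool × Bool)}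
    (h : RS.right (w, (m, s)) st') :
    (∃ w', RMove w w' ∧ st' = (w', (m, s))) ∨ (m = true ∧ st' = (w, (false, s))) ∨
      (s = true ∧ st' = (w, (m, false))) := by
  obtain ⟨w', m', s'⟩ := st'
  rcases h with ⟨h1, h2⟩ | ⟨h1, h2⟩
  · left
    exact ⟨w', h1, Prod.ext rfl h2.symm⟩
  · rcases h2 with ⟨⟨h2, h3⟩, h4⟩ | ⟨h2, h3, h4⟩
    · right; left
      simp only at h1 h2 h3 h4
      subst h1; subst h3; subst h4
      exact ⟨h2, rfl⟩
    · right; right
      simp only at h1 h2 h3 h4
      subst h1; subst h2; subst h4
      exact ⟨h3, rfl⟩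

lemma left_board {w w' : List Sq} (m s : Bool) (h : LMove w w') :
    RS.left (w, (m, s)) (w', (m, s)) := Or.inl ⟨h, rfl⟩

lemma left_star (w : List Sq) (m : Bool) : RS.left (w, (m, true)) (w, (m, false)) :=
  Or.inr ⟨rfl, Or.inr ⟨rfl, rfl, rfl⟩⟩

/-- a Boolean as a number -/
def bn : Bool → ℕ
  | true => 1
  | false => 0

theorem leaf_good : ∀ (N : ℕ) (w : List Sq) (m s : Bool), pEF w + bn m + bn s = N → N ≤ sf w →
    Good (w, (m, s)) := by
  intro N
  induction N with
  | zero =>
    intro w m s hN _ st' h
    rcases right_cases h with ⟨w', g, rfl⟩ | ⟨hm, rfl⟩ | ⟨hs, rfl⟩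
    · have := g.counts
      omega
    · subst hm; simp [bn] at hN
    · subst hs; simp [bn] at hN
  | succ N ih =>
    intro w m s hN hS st' h
    have reply : ∀ (w' : List Sq) (m' s' : Bool), pEF w' + bn m' + bn s' = N → N + 1 ≤ sf w' →
        WinsFirst RS.left RS.right (w', (m', s')) := by
      intro w' m' s' h1 h2
      obtain ⟨w'', g1, g2, g3, _, _⟩ := exists_safe w' (by omega)
      exact WinsFirst.intro _ (w'', (m', s')) (left_board m' s' g1)
        (ih w'' m' s' (by rw [g3]; exact h1) (by omega))
    rcases right_cases h with ⟨w', g, rfl⟩ | ⟨hm, rfl⟩ | ⟨hs, rfl⟩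
    · have := g.counts
      exact reply w' m s (by omega) (by omega)
    · subst hm
      simp only [bn] at hN
      exact reply w false s (by simp only [bn]; omega) (by omega)
    · subst hs
      simp only [bn] at hN
      exact reply w m false (by simp only [bn]; omega) (by omega)

/-! ### The checker -/

/-- binary search trees -/
inductive Tr
  | nil
  | node (l : Tr) (k : ℕ) (r : Tr)

/-- membership in a search tree -/
noncomputable def mem (k : ℕ) (t : Tr) : Bool :=
  Tr.rec (motive := fun _ => Bool) false
    (fun _ x _ a b => cond (Nat.beq k x) true (cond (Nat.ble k x) a b)) t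

/-- code of a square -/
def cs : Sq → ℕ
  | E => 0
  | T => 1
  | F => 2

/-- square with a given code -/
def ds (k : ℕ) : Sq := cond (Nat.beq k 0) E (cond (Nat.beq k 1) T F)

/-- code of a word -/
def enc : List Sq → ℕ
  | [] => 0
  | x :: v => cs x + 4 * enc v

/-- word with a given code -/
def dec : ℕ → ℕ → List Sq
  | 0, _ => []
  | n + 1, k => ds (k % 4) :: dec n (k / 4)

/-- code of a state -/
def encS (st : List Sq × (Bool × Bool)) : ℕ := 4 * enc st.1 + (2 * bn st.2.2 + bn st.2.1)

/-- state with a given code -/
def decS (n k : ℕ) : List Sq × (Bool × Bool) :=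
  (dec n (k / 4), (Nat.beq (k % 2) 1, Nat.beq (k / 2 % 2) 1))

lemma dec_enc (w : List Sq) : dec w.length (enc w) = w := by
  induction w with
  | nil => rfl
  | cons x v ih =>
    rw [List.length_cons, dec, enc]
    have h1 : (cs x + 4 * enc v) % 4 = cs x := by cases x <;> simp [cs]
    have h2 : (cs x + 4 * enc v) / 4 = enc v := by cases x <;> simp [cs] <;> omega
    rw [h1, h2, ih]
    cases x <;> rfl

lemma decS_encS (st : List Sq × (Bool × Bool)) : decS st.1.length (encS st) = st := by
  obtain ⟨w, m, s⟩ := st
  have h1 : (4 * enc w + (2 * bn s + bn m)) / 4 = enc w := by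
    cases m <;> cases s <;> simp [bn] <;> omega
  have h2 : (4 * enc w + (2 * bn s + bn m)) % 2 = bn m := by
    cases m <;> cases s <;> simp [bn] <;> omega
  have h3 : (4 * enc w + (2 * bn s + bn m)) / 2 % 2 = bn s := by
    cases m <;> cases s <;> simp [bn] <;> omega
  simp only [decS, encS, h1, h2, h3, dec_enc]
  cases m <;> cases s <;> rfl

/-- Left's options -/
def lopts (st : List Sq × (Bool × Bool)) : List (List Sq × (Bool × Bool)) :=
  (cond st.2.2 [(st.1, (st.2.1, false))] []) ++ (lms st.1).map (fun w => (w, st.2))

/-- Right's options -/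
def ropts (st : List Sq × (Bool × Bool)) : List (List Sq × (Bool × Bool)) :=
  (cond st.2.2 [(st.1, (st.2.1, false))] []) ++ ((cond st.2.1 [(st.1, (false, st.2.2))] []) ++
    (rms st.1).map (fun w => (w, st.2)))

/-- the simple criterion of `leaf_good` -/
def leaf (st : List Sq × (Bool × Bool)) : Bool :=
  Nat.ble (pEF st.1 + bn st.2.1 + bn st.2.2) (sf st.1)

/-- `Left` is known to win when Right moves first -/
noncomputable def ok (t : Tr) (st : List Sq × (Bool × Bool)) : Bool :=
  cond (leaf st) true (mem (encS st) t)

/-- every move of Right has a good reply -/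
noncomputable def chk (t : Tr) (st : List Sq × (Bool × Bool)) : Bool :=
  (ropts st).all fun q => (lopts q).any fun p => ok t p

/-- check all nodes of a tree -/
noncomputable def chkAll (n : ℕ) (W : Tr) (t : Tr) : Bool :=
  Tr.rec (motive := fun _ => Bool) true
    (fun _ k _ a b => cond (chk W (decS n k)) (cond a b false) false) t

lemma lopts_sound {st p : List Sq × (Bool × Bool)} (h : p ∈ lopts st) : RS.left st p := by
  obtain ⟨w, m, s⟩ := st
  rw [lopts, List.mem_append] at h
  rcases h with h | h
  · cases s with
    | false => simp at h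
    | true =>
      simp only [cond_true, List.mem_singleton] at h
      rw [h]
      exact left_star w m
  · rw [List.mem_map] at h
    obtain ⟨w', hw', rfl⟩ := h
    exact left_board m s (lms_sound w w' hw')

lemma ropts_complete {st q : List Sq × (Bool × Bool)} (h : RS.right st q) : q ∈ ropts st := by
  obtain ⟨w, m, s⟩ := st
  rw [ropts, List.mem_append, List.mem_append]
  rcases right_cases h with ⟨w', g, rfl⟩ | ⟨hm, rfl⟩ | ⟨hs, rfl⟩
  · right; right
    exact List.mem_map.2 ⟨w', rms_complete g, rfl⟩
  · subst hm
    right; left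
    simp
  · subst hs
    left
    simp

/-- total measure of a state -/
def muS (st : List Sq × (Bool × Bool)) : ℕ := mu st.1 + bn st.2.1 + bn st.2.2

lemma left_muS {st st' : List Sq × (Bool × Bool)} (h : RS.left st st') :
    st'.1.length = st.1.length ∧ muS st' < muS st := by
  obtain ⟨w, m, s⟩ := st
  obtain ⟨w', m', s'⟩ := st'
  rcases h with ⟨h1, h2⟩ | ⟨h1, h2⟩
  · simp only at h1 h2
    have := LMove.counts h1
    simp only [Prod.mk.injEq] at h2
    obtain ⟨rfl, rfl⟩ := h2
    simp only [muS]
    omega
  · rcases h2 with ⟨h2, _⟩ | ⟨h2, h3, h4⟩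
    · exact h2.elim
    · simp only at h1 h2 h3 h4
      subst h1; subst h2; subst h3; subst h4
      simp [muS, bn]

lemma right_muS {st st' : List Sq × (Bool × Bool)} (h : RS.right st st') :
    st'.1.length = st.1.length ∧ muS st' < muS st := by
  obtain ⟨w, m, s⟩ := st
  rcases right_cases h with ⟨w', g, rfl⟩ | ⟨hm, rfl⟩ | ⟨hs, rfl⟩
  · have := g.counts
    simp only [muS]
    omega
  · subst hm; simp [muS, bn]
  · subst hs; simp [muS, bn]

theorem ok_good {n : ℕ} {W : Tr} (hW : ∀ st : List Sq × (Bool × Bool), st.1.length = n →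
    mem (encS st) W = true → chk W st = true) :
    ∀ (N : ℕ) (st : List Sq × (Bool × Bool)), muS st = N → st.1.length = n → ok W st = true →
      Good st := by
  intro N
  induction N using Nat.strong_induction_on with
  | _ N ih =>
    intro st hN hn hok
    by_cases hleaf : leaf st = true
    · obtain ⟨w, m, s⟩ := st
      exact leaf_good _ w m s rfl (Nat.le_of_ble_eq_true hleaf)
    · have hmem : mem (encS st) W = true := by
        have : leaf st = false := by simpa using hleaf
        rw [ok, this, cond_false] at hok
        exact hok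
      have hc := hW st hn hmem
      intro q hq
      rw [chk, List.all_eq_true] at hc
      have h1 := hc q (ropts_complete hq)
      rw [List.any_eq_true] at h1
      obtain ⟨p, hp, hpok⟩ := h1
      have hl := lopts_sound hp
      have m1 := right_muS hq
      have m2 := left_muS hl
      exact WinsFirst.intro q p hl (ih (muS p) (by omega) p rfl (by omega) hpok)

lemma chkAll_mem {n : ℕ} {W : Tr} {k : ℕ} : ∀ t : Tr, chkAll n W t = true → mem k t = true →
    chk W (decS n k) = true := by
  intro t
  induction t with
  | nil => intro _ h; exact absurd h (by simp [mem])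
  | node l x r ihl ihr =>
    intro h1 h2
    have e1 : chkAll n W (Tr.node l x r) =
      cond (chk W (decS n x)) (cond (chkAll n W l) (chkAll n W r) false) false := rfl
    have e2 : mem k (Tr.node l x r) =
      cond (Nat.beq k x) true (cond (Nat.ble k x) (mem k l) (mem k r)) := rfl
    rw [e1] at h1
    rw [e2] at h2
    cases hx : chk W (decS n x) with
    | false => rw [hx] at h1; simp at h1
    | true =>
      rw [hx, cond_true] at h1
      cases hl : chkAll n W l with
      | false => rw [hl] at h1; simp at h1
      | true =>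
        rw [hl, cond_true] at h1
        cases hk : Nat.beq k x with
        | true =>
          rw [Nat.eq_of_beq_eq_true hk]
          exact hx
        | false =>
          rw [hk, cond_false] at h2
          cases hb : Nat.ble k x with
          | true => rw [hb, cond_true] at h2; exact ihl hl h2
          | false => rw [hb, cond_false] at h2; exact ihr h1 h2

/-- soundness of the checker -/
theorem good_of_check {n : ℕ} {W : Tr} (h : chkAll n W W = true) (st : List Sq × (Bool × Bool))
    (hn : st.1.length = n) (hok : ok W st = true) : Good st := by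
  refine ok_good (n := n) (W := W) ?_ (muS st) st rfl hn hok
  intro st' hn' hmem
  have := chkAll_mem (n := n) (W := W) (k := encS st') W h hmem
  rw [← hn', decS_encS] at this
  exact this

/-- combining the checks of subtrees -/
lemma chkAll_node {n : ℕ} {W l r : Tr} {k : ℕ} (h : chk W (decS n k) = true)
    (hl : chkAll n W l = true) (hr : chkAll n W r = true) : chkAll n W (Tr.node l k r) = true := by
  have e1 : chkAll n W (Tr.node l k r) =
      cond (chk W (decS n k)) (cond (chkAll n W l) (chkAll n W r) false) false := rfl
  rw [e1, h, hl, hr]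
  rfl

/-- from the game with `*` to the game without -/
lemma drop_star {st : List Sq × (Bool × Bool)} (h : WinsFirst RS.left RS.right st) :
    st.2.2 = false → WinsFirst (toadsAndFrogs.add one.neg).left (toadsAndFrogs.add one.neg).right
      (st.1, st.2.1) := by
  induction h with
  | intro x y hxy h ih =>
    intro hs
    obtain ⟨w, m, s⟩ := x
    obtain ⟨w', m', s'⟩ := y
    simp only at hs
    subst hs
    rcases hxy with ⟨h1, h2⟩ | ⟨h1, h2⟩
    · simp only [Prod.mk.injEq] at h1 h2
      obtain ⟨rfl, rfl⟩ := h2
      refine WinsFirst.intro _ (w', m) (Or.inl ⟨h1, rfl⟩) ?_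
      rintro ⟨w'', m''⟩ hz
      refine ih (w'', (m'', false)) ?_ rfl
      rcases hz with ⟨g1, g2⟩ | ⟨g1, g2⟩
      · simp only at g1 g2
        subst g2
        exact Or.inl ⟨g1, rfl⟩
      · simp only at g1 g2
        subst g1
        exact Or.inr ⟨rfl, Or.inl ⟨g2, rfl⟩⟩
    · rcases h2 with ⟨h2, _⟩ | ⟨_, h3, _⟩
      · exact h2.elim
      · simp at h3

end Run7.h708.TF
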