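import Pool.Agent.Run7.h708.TF.Check
set_option autoImplicit false

/-!
# Toads and Frogs: a faster certificate checker, on codes
-/

namespace Run7.h708.TF

open Sq

/-! ### Codes of words -/

lemma enc_append (u v : List Sq) : enc (u ++ v) = enc u + 4 ^ u.length * enc v := by
  induction u with
  | nil => simp [enc]
  | cons x u ih => simp only [List.cons_append, enc, ih, List.length_cons, pow_succ]; ring

lemma enc_lt (u : List Sq) : enc u < 4 ^ u.length := by
  induction u with
  | nil => simp [enc]
  | cons x u ih =>
    simp only [enc, List.length_cons, pow_succ]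
    have : cs x ≤ 2 := by cases x <;> simp [cs]
    omega

lemma enc_append_div (u v : List Sq) : enc (u ++ v) / 4 ^ u.length = enc v := by
  rw [enc_append, Nat.add_mul_div_left _ _ (by positivity), Nat.div_eq_of_lt (enc_lt u), zero_add]

/-- the leaf criterion, one pass from left to right. `e` empty squares and `t` toads since the last frog
so far, `p` pairs (empty square, frog), `s` safe pairs -/
def leafGo (n : ℕ) : ℕ → ℕ → ℕ → ℕ → ℕ → ℕ → Bool :=
  Nat.rec (motive := fun _ => ℕ → ℕ → ℕ → ℕ → ℕ → ℕ → Bool)
    (fun _ _ _ p s m => Nat.ble (p + m) s)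
    (fun _ ih k e t p s m => cond (Nat.beq (k % 4) 0) (ih (k / 4) (e + 1) t p (s + t) m)
      (cond (Nat.beq (k % 4) 1) (ih (k / 4) e (t + 1) p s m) (ih (k / 4) e 0 (p + e) 0 m))) n

lemma leafGo_enc (w : List Sq) : ∀ e t p s m : ℕ,
    leafGo w.length (enc w) e t p s m = Nat.ble (p + e * cF w + pEF w + m)
      (if cF w = 0 then s + t * cE w + sf w else sf w) := by
  induction w with
  | nil => intro e t p s m; simp [leafGo, cF, cE, sf, pEF]
  | cons x v ih =>
    intro e t p s m
    have h2 : enc (x :: v) / 4 = enc v := by cases x <;> simp [enc, cs] <;> omega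
    have e1 : leafGo (x :: v).length (enc (x :: v)) e t p s m =
      cond (Nat.beq (enc (x :: v) % 4) 0) (leafGo v.length (enc (x :: v) / 4) (e + 1) t p (s + t) m)
      (cond (Nat.beq (enc (x :: v) % 4) 1) (leafGo v.length (enc (x :: v) / 4) e (t + 1) p s m)
        (leafGo v.length (enc (x :: v) / 4) e 0 (p + e) 0 m)) := rfl
    rw [e1, h2]
    cases x with
    | E =>
      have h1 : enc (E :: v) % 4 = 0 := by simp [enc, cs]
      have z : Nat.beq 0 0 = true := rfl
      rw [h1, z, cond_true, ih]
      simp only [cF, cE, pEF, sf]
      have a1 : p + (e + 1) * cF v + pEF v + m = p + e * cF v + (pEF v + cF v) + m := by ring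
      have a2 : s + t + t * cE v + sf v = s + t * (cE v + 1) + sf v := by ring
      rw [a1, a2]
      try rfl
    | T =>
      have h1 : enc (T :: v) % 4 = 1 := by simp [enc, cs]
      have z : Nat.beq 1 0 = false := rfl
      have z' : Nat.beq 1 1 = true := rfl
      rw [h1, z, cond_false, z', cond_true, ih]
      simp only [cF, cE, pEF, sf]
      congr 1
      split_ifs
      · ring
      · simp
    | F =>
      have h1 : enc (F :: v) % 4 = 2 := by simp [enc, cs]
      have a : Nat.beq 2 0 = false := rfl
      have b : Nat.beq 2 1 = false := rfl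
      rw [h1, a, cond_false, b, cond_false, ih]
      simp only [cF, cE, pEF, sf]
      have a1 : p + e + e * cF v + pEF v + m = p + e * (cF v + 1) + pEF v + m := by ring
      rw [a1]
      simp

/-- number of tokens (`-1` and `*`) still present, as a function of the flags -/
def tok (f : ℕ) : ℕ := f % 2 + f / 2

/-- flags -/
def fl (m s : Bool) : ℕ := 2 * bn s + bn m

/-- the target of a reply is a leaf, or belongs to the tree -/
noncomputable def tst (n : ℕ) (W : Tr) (lf : Bool) (k f : ℕ) : Bool :=
  cond lf (leafGo n k 0 0 0 0 (tok f)) (mem (4 * k + f) W)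

/-- the reply of Left described by `d` is legal and good. `d = 62, 63`: take the star; otherwise the toad
at `d / 2` moves; `d` odd means that the target is a leaf -/
noncomputable def rep (n : ℕ) (W : Tr) (k f d : ℕ) : Bool :=
  cond (Nat.beq (d / 2) 31)
    (cond (Nat.ble 2 f) (tst n W (Nat.beq (d % 2) 1) k (f - 2)) false)
    (cond (Nat.beq (k / 4 ^ (d / 2) % 16) 1)
      (cond (Nat.ble (d / 2 + 2) n) (tst n W (Nat.beq (d % 2) 1) (k + 3 * 4 ^ (d / 2)) f) false)
      (cond (Nat.beq (k / 4 ^ (d / 2) % 64) 9)
        (cond (Nat.ble (d / 2 + 3) n) (tst n W (Nat.beq (d % 2) 1) (k + 15 * 4 ^ (d / 2)) f) false)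
        false))

/-- every move of a frog at a place `< j` has a good reply; `h` lists the replies in base `64` -/
noncomputable def rlp (n : ℕ) (W : Tr) (k f : ℕ) (j : ℕ) : ℕ → Bool :=
  Nat.rec (motive := fun _ => ℕ → Bool) (fun _ => true)
    (fun i ih h => cond (Nat.beq (k / 4 ^ i % 16) 8)
      (cond (rep n W (k - 6 * 4 ^ i) f (h % 64)) (ih (h / 64)) false)
      (cond (Nat.beq (k / 4 ^ i % 64) 36)
        (cond (rep n W (k - 30 * 4 ^ i) f (h % 64)) (ih (h / 64)) false)
        (ih h))) j

/-- the check at one node: first the star, then `-1`, then the frogs -/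
noncomputable def chk2 (n : ℕ) (W : Tr) (k f h : ℕ) : Bool :=
  cond (cond (Nat.ble 2 f) (rep n W k (f - 2) (h % 64)) true)
    (cond (cond (Nat.beq (f % 2) 1) (rep n W k (f - 1) (h / 64 % 64)) true)
      (rlp n W k f n (h / 4096)) false) false

/-- trees with hints -/
inductive TrH
  | N
  | D (l : TrH) (k h : ℕ) (r : TrH)

/-- forget the hints -/
noncomputable def TrH.toTr (t : TrH) : Tr :=
  TrH.rec (motive := fun _ => Tr) Tr.nil (fun _ k _ _ a b => Tr.node a k b) t

/-- check all nodes -/
noncomputable def chkAll2 (n : ℕ) (W : Tr) (t : TrH) : Bool :=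
  TrH.rec (motive := fun _ => Bool) true
    (fun _ k h _ a b => cond (chk2 n W (k / 4) (k % 4) h) (cond a b false) false) t

/-! ### Soundness -/

/-- what `tst` gives -/
def Ok (n : ℕ) (W : Tr) (st : List Sq × (Bool × Bool)) : Prop :=
  st.1.length = n ∧ (leaf st = true ∨ mem (encS st) W = true)

lemma tok_fl (m s : Bool) : tok (fl m s) = bn m + bn s := by
  cases m <;> cases s <;> rfl

lemma tst_sound {n : ℕ} {W : Tr} {lf : Bool} {w : List Sq} {m s : Bool} (hn : w.length = n)
    (h : tst n W lf (enc w) (fl m s) = true) : Ok n W (w, (m, s)) := by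
  refine ⟨hn, ?_⟩
  unfold tst at h
  cases lf with
  | true =>
    left
    rw [cond_true, ← hn, leafGo_enc, tok_fl] at h
    rw [leaf]
    have h' := Nat.le_of_ble_eq_true h
    apply Nat.ble_eq_true_of_le
    simp only at h' ⊢
    split_ifs at h' <;> omega
  | false =>
    right
    rw [cond_false] at h
    exact h

lemma split_at {w : List Sq} {i : ℕ} (hi : i ≤ w.length) :
    ∃ u v, w = u ++ v ∧ u.length = i ∧ enc v = enc w / 4 ^ i := by
  refine ⟨w.take i, w.drop i, (List.take_append_drop i w).symm, by simp [hi], ?_⟩
  have h := enc_append_div (w.take i) (w.drop i)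
  rw [List.take_append_drop] at h
  rw [← h]
  simp [hi]

lemma rep_sound {n : ℕ} {W : Tr} {w : List Sq} {m s : Bool} {d : ℕ} (hn : w.length = n)
    (h : rep n W (enc w) (fl m s) d = true) :
    ∃ st, RS.left (w, (m, s)) st ∧ Ok n W st := by
  unfold rep at h
  generalize Nat.beq (d % 2) 1 = lf at h
  cases h1 : Nat.beq (d / 2) 31 with
  | true =>
    rw [h1, cond_true] at h
    cases s with
    | false =>
      have : Nat.ble 2 (fl m false) = false := by cases m <;> rfl
      rw [this] at h
      simp at h
    | true =>
      have e1 : Nat.ble 2 (fl m true) = true := by cases m <;> rfl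
      have e2 : fl m true - 2 = fl m false := by cases m <;> rfl
      rw [e1, cond_true, e2] at h
      exact ⟨_, left_star w m, tst_sound hn h⟩
  | false =>
    rw [h1, cond_false] at h
    cases h2 : Nat.beq (enc w / 4 ^ (d / 2) % 16) 1 with
    | true =>
      rw [h2, cond_true] at h
      cases h3 : Nat.ble (d / 2 + 2) n with
      | false => rw [h3] at h; simp at h
      | true =>
        rw [h3, cond_true] at h
        have h3' := Nat.le_of_ble_eq_true h3
        obtain ⟨u, v, rfl, hu, hv⟩ := split_at (w := w) (i := d / 2) (by omega)
        have h2' := Nat.eq_of_beq_eq_true h2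
        rw [← hv] at h2'
        rw [List.length_append] at hn
        match v, hv, h2', hn with
        | [], _, h2', _ => simp [enc] at h2'
        | [x], _, h2', hn => simp at hn; omega
        | x :: y :: v, hv, h2', hn =>
          have hx : x = T := by
            cases x <;> cases y <;> simp [enc, cs] at h2' ⊢ <;> omega
          have hy : y = E := by
            cases x <;> cases y <;> simp [enc, cs] at h2' ⊢ <;> omega
          subst hx; subst hy
          refine ⟨(u ++ E :: T :: v, (m, s)), left_board m s (LMove.slide u v), tst_sound (lf := lf) ?_ ?_⟩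
          · simpa using hn
          · have : enc (u ++ E :: T :: v) = enc (u ++ T :: E :: v) + 3 * 4 ^ (d / 2) := by
              rw [enc_append, enc_append, hu]
              simp only [enc, cs]
              ring
            rw [this]
            exact h
    | false =>
      rw [h2, cond_false] at h
      cases h4 : Nat.beq (enc w / 4 ^ (d / 2) % 64) 9 with
      | false => rw [h4] at h; simp at h
      | true =>
        rw [h4, cond_true] at h
        cases h3 : Nat.ble (d / 2 + 3) n with
        | false => rw [h3] at h; simp at h
        | true =>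
          rw [h3, cond_true] at h
          have h3' := Nat.le_of_ble_eq_true h3
          obtain ⟨u, v, rfl, hu, hv⟩ := split_at (w := w) (i := d / 2) (by omega)
          have h2' := Nat.eq_of_beq_eq_true h4
          rw [← hv] at h2'
          rw [List.length_append] at hn
          match v, hv, h2', hn with
          | [], _, h2', _ => simp [enc] at h2'
          | [x], _, h2', hn => simp at hn; omega
          | [x, y], _, h2', hn => simp at hn; omega
          | x :: y :: z :: v, hv, h2', hn =>
            have hx : x = T := by
              cases x <;> cases y <;> cases z <;> simp [enc, cs] at h2' ⊢ <;> omega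
            have hy : y = F := by
              cases x <;> cases y <;> cases z <;> simp [enc, cs] at h2' ⊢ <;> omega
            have hz : z = E := by
              cases x <;> cases y <;> cases z <;> simp [enc, cs] at h2' ⊢ <;> omega
            subst hx; subst hy; subst hz
            refine ⟨(u ++ E :: F :: T :: v, (m, s)), left_board m s (LMove.jump u v),
              tst_sound (lf := lf) ?_ ?_⟩
            · simpa using hn
            · have : enc (u ++ E :: F :: T :: v) = enc (u ++ T :: F :: E :: v) + 15 * 4 ^ (d / 2) := by
                rw [enc_append, enc_append, hu]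
                simp only [enc, cs]
                ring
              rw [this]
              exact h

lemma rlp_sound {n : ℕ} {W : Tr} {k f : ℕ} : ∀ (j h : ℕ), rlp n W k f j h = true → ∀ i < j,
    (k / 4 ^ i % 16 = 8 → ∃ d, rep n W (k - 6 * 4 ^ i) f d = true) ∧
    (k / 4 ^ i % 64 = 36 → ∃ d, rep n W (k - 30 * 4 ^ i) f d = true) := by
  intro j
  induction j with
  | zero => intro h _ i hi; omega
  | succ j ih =>
    intro h hh i hi
    have e : rlp n W k f (j + 1) h = cond (Nat.beq (k / 4 ^ j % 16) 8)
      (cond (rep n W (k - 6 * 4 ^ j) f (h % 64)) (rlp n W k f j (h / 64)) false)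
      (cond (Nat.beq (k / 4 ^ j % 64) 36)
        (cond (rep n W (k - 30 * 4 ^ j) f (h % 64)) (rlp n W k f j (h / 64)) false)
        (rlp n W k f j h)) := rfl
    rw [e] at hh
    cases h1 : Nat.beq (k / 4 ^ j % 16) 8 with
    | true =>
      rw [h1, cond_true] at hh
      cases h2 : rep n W (k - 6 * 4 ^ j) f (h % 64) with
      | false => rw [h2] at hh; simp at hh
      | true =>
        rw [h2, cond_true] at hh
        rcases Nat.lt_succ_iff_lt_or_eq.1 hi with hi | rfl
        · exact ih _ hh i hi
        · refine ⟨fun _ => ⟨_, h2⟩, fun h3 => ?_⟩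
          have := Nat.eq_of_beq_eq_true h1
          omega
    | false =>
      rw [h1, cond_false] at hh
      have h1' := Nat.ne_of_beq_eq_false h1
      cases h3 : Nat.beq (k / 4 ^ j % 64) 36 with
      | true =>
        rw [h3, cond_true] at hh
        cases h2 : rep n W (k - 30 * 4 ^ j) f (h % 64) with
        | false => rw [h2] at hh; simp at hh
        | true =>
          rw [h2, cond_true] at hh
          rcases Nat.lt_succ_iff_lt_or_eq.1 hi with hi | rfl
          · exact ih _ hh i hi
          · exact ⟨fun h => absurd h h1', fun _ => ⟨_, h2⟩⟩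
      | false =>
        rw [h3, cond_false] at hh
        rcases Nat.lt_succ_iff_lt_or_eq.1 hi with hi | rfl
        · exact ih _ hh i hi
        · exact ⟨fun h => absurd h h1', fun h => absurd h (Nat.ne_of_beq_eq_false h3)⟩

/-- every move of Right can be answered by a move to a position in `Ok` -/
def Answered (n : ℕ) (W : Tr) (st : List Sq × (Bool × Bool)) : Prop :=
  ∀ q, RS.right st q → ∃ p, RS.left q p ∧ Ok n W p

lemma chk2_sound {n : ℕ} {W : Tr} {w : List Sq} {m s : Bool} {h : ℕ} (hn : w.length = n)
    (hc : chk2 n W (enc w) (fl m s) h = true) : Answered n W (w, (m, s)) := by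
  unfold chk2 at hc
  cases h1 : cond (Nat.ble 2 (fl m s)) (rep n W (enc w) (fl m s - 2) (h % 64)) true with
  | false => rw [h1] at hc; simp at hc
  | true =>
    rw [h1, cond_true] at hc
    cases h2 : cond (Nat.beq (fl m s % 2) 1) (rep n W (enc w) (fl m s - 1) (h / 64 % 64)) true with
    | false => rw [h2] at hc; simp at hc
    | true =>
      rw [h2, cond_true] at hc
      intro q hq
      rcases right_cases hq with ⟨w', g, rfl⟩ | ⟨hm, rfl⟩ | ⟨hs, rfl⟩
      · have hl := g.counts
        have hr := rlp_sound n _ hc
        cases g with
        | slide u v =>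
          have h5 : enc (u ++ E :: F :: v) / 4 ^ u.length = enc (E :: F :: v) := enc_append_div _ _
          have h6 : enc (u ++ F :: E :: v) = enc (u ++ E :: F :: v) - 6 * 4 ^ u.length := by
            rw [enc_append, enc_append]
            simp only [enc, cs]
            have : 4 ^ u.length * (0 + 4 * (2 + 4 * enc v)) =
              4 ^ u.length * (2 + 4 * (0 + 4 * enc v)) + 6 * 4 ^ u.length := by ring
            omega
          have h7 : u.length < n := by
            rw [← hn]; simp
          have h8 := (hr u.length h7).1 (by rw [h5]; simp [enc, cs]; omega)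
          obtain ⟨d, hd⟩ := h8
          rw [← h6] at hd
          exact rep_sound (by rw [hl.1, hn]) hd
        | jump u v =>
          have h5 : enc (u ++ E :: T :: F :: v) / 4 ^ u.length = enc (E :: T :: F :: v) :=
            enc_append_div _ _
          have h6 : enc (u ++ F :: T :: E :: v) = enc (u ++ E :: T :: F :: v) - 30 * 4 ^ u.length := by
            rw [enc_append, enc_append]
            simp only [enc, cs]
            have : 4 ^ u.length * (0 + 4 * (1 + 4 * (2 + 4 * enc v))) =
              4 ^ u.length * (2 + 4 * (1 + 4 * (0 + 4 * enc v))) + 30 * 4 ^ u.length := by ring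
            omega
          have h7 : u.length < n := by
            rw [← hn]; simp
          have h8 := (hr u.length h7).2 (by rw [h5]; simp [enc, cs]; try omega)
          obtain ⟨d, hd⟩ := h8
          rw [← h6] at hd
          exact rep_sound (by rw [hl.1, hn]) hd
      · subst hm
        have e1 : Nat.beq (fl true s % 2) 1 = true := by cases s <;> rfl
        have e2 : fl true s - 1 = fl false s := by cases s <;> rfl
        rw [e1, cond_true, e2] at h2
        exact rep_sound hn h2
      · subst hs
        have e1 : Nat.ble 2 (fl m true) = true := by cases m <;> rfl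
        have e2 : fl m true - 2 = fl m false := by cases m <;> rfl
        rw [e1, cond_true, e2] at h1
        exact rep_sound hn h1

theorem ok_good2 {n : ℕ} {W : Tr} (hW : ∀ st : List Sq × (Bool × Bool), st.1.length = n →
    mem (encS st) W = true → Answered n W st) :
    ∀ (N : ℕ) (st : List Sq × (Bool × Bool)), muS st = N → Ok n W st → Good st := by
  intro N
  induction N using Nat.strong_induction_on with
  | _ N ih =>
    intro st hN hok
    rcases hok.2 with hleaf | hmem
    · obtain ⟨w, m, s⟩ := st
      exact leaf_good _ w m s rfl (Nat.le_of_ble_eq_true hleaf)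
    · intro q hq
      obtain ⟨p, hl, hp⟩ := hW st hok.1 hmem q hq
      have m1 := right_muS hq
      have m2 := left_muS hl
      exact WinsFirst.intro q p hl (ih (muS p) (by omega) p rfl hp)

lemma chkAll2_mem {n : ℕ} {W : Tr} {k : ℕ} : ∀ t : TrH, chkAll2 n W t = true →
    mem k t.toTr = true → ∃ h, chk2 n W (k / 4) (k % 4) h = true := by
  intro t
  induction t with
  | N => intro _ h; exact absurd h (by simp [mem, TrH.toTr])
  | D l x y r ihl ihr =>
    intro h1 h2
    have e1 : chkAll2 n W (TrH.D l x y r) =
      cond (chk2 n W (x / 4) (x % 4) y) (cond (chkAll2 n W l) (chkAll2 n W r) false) false := rfl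
    have e2 : mem k (TrH.D l x y r).toTr =
      cond (Nat.beq k x) true (cond (Nat.ble k x) (mem k l.toTr) (mem k r.toTr)) := rfl
    rw [e1] at h1
    rw [e2] at h2
    cases hx : chk2 n W (x / 4) (x % 4) y with
    | false => rw [hx] at h1; simp at h1
    | true =>
      rw [hx, cond_true] at h1
      cases hl : chkAll2 n W l with
      | false => rw [hl] at h1; simp at h1
      | true =>
        rw [hl, cond_true] at h1
        cases hk : Nat.beq k x with
        | true =>
          rw [Nat.eq_of_beq_eq_true hk]
          exact ⟨y, hx⟩
        | false =>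
          rw [hk, cond_false] at h2
          cases hb : Nat.ble k x with
          | true => rw [hb, cond_true] at h2; exact ihl hl h2
          | false => rw [hb, cond_false] at h2; exact ihr h1 h2

/-- soundness of the second checker -/
theorem good_of_check2 {n : ℕ} {t : TrH} (h : chkAll2 n t.toTr t = true)
    (st : List Sq × (Bool × Bool)) (hok : Ok n t.toTr st) : Good st := by
  refine ok_good2 (n := n) (W := t.toTr) ?_ (muS st) st rfl hok
  intro st' hn' hmem
  obtain ⟨w, m, s⟩ := st'
  obtain ⟨hh, hc⟩ := chkAll2_mem (k := encS (w, (m, s))) t h hmem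
  have e1 : encS (w, (m, s)) / 4 = enc w := by
    simp only [encS]
    cases m <;> cases s <;> simp [bn] <;> omega
  have e2 : encS (w, (m, s)) % 4 = fl m s := by
    simp only [encS, fl]
    cases m <;> cases s <;> simp [bn] <;> omega
  rw [e1, e2] at hc
  exact chk2_sound hn' hc

/-- combining the checks of subtrees -/
lemma chkAll2_node {n : ℕ} {W : Tr} {l r : TrH} {k h : ℕ} (h1 : chk2 n W (k / 4) (k % 4) h = true)
    (hl : chkAll2 n W l = true) (hr : chkAll2 n W r = true) :
    chkAll2 n W (TrH.D l k h r) = true := by
  have e1 : chkAll2 n W (TrH.D l k h r) =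
      cond (chk2 n W (k / 4) (k % 4) h) (cond (chkAll2 n W l) (chkAll2 n W r) false) false := rfl
  rw [e1, h1, hl, hr]
  rfl

end Run7.h708.TF
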