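import Pool.Agent.Run7.h708.TF.Full
set_option autoImplicit false

/-! Checking the certificate, part 1 (generated) -/

namespace Run7.h708.TF.Cert

theorem c0 : chkAll2 20 full.toTr s0 = true := by decide +kernel
theorem c1 : chkAll2 20 full.toTr s1 = true := by decide +kernel
theorem c2 : chkAll2 20 full.toTr s2 = true := by decide +kernel
theorem c3 : chkAll2 20 full.toTr s3 = true := by decide +kernel
theorem c4 : chkAll2 20 full.toTr s4 = true := by decide +kernel
theorem c5 : chkAll2 20 full.toTr s5 = true := by decide +kernel
theorem c6 : chkAll2 20 full.toTr s6 = true := by decide +kernel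
theorem c7 : chkAll2 20 full.toTr s7 = true := by decide +kernel
theorem c8 : chkAll2 20 full.toTr s8 = true := by decide +kernel
theorem c9 : chkAll2 20 full.toTr s9 = true := by decide +kernel
theorem c10 : chkAll2 20 full.toTr s10 = true := by decide +kernel
theorem c11 : chkAll2 20 full.toTr s11 = true := by decide +kernel
theorem c12 : chkAll2 20 full.toTr s12 = true := by decide +kernel
theorem c13 : chkAll2 20 full.toTr s13 = true := by decide +kernel
theorem c14 : chkAll2 20 full.toTr s14 = true := by decide +kernel
theorem c15 : chkAll2 20 full.toTr s15 = true := by decide +kernel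
theorem c16 : chkAll2 20 full.toTr s16 = true := by decide +kernel
theorem c17 : chkAll2 20 full.toTr s17 = true := by decide +kernel
theorem c18 : chkAll2 20 full.toTr s18 = true := by decide +kernel
theorem c19 : chkAll2 20 full.toTr s19 = true := by decide +kernel
theorem c20 : chkAll2 20 full.toTr s20 = true := by decide +kernel
theorem c21 : chkAll2 20 full.toTr s21 = true := by decide +kernel
theorem c22 : chkAll2 20 full.toTr s22 = true := by decide +kernel
theorem c23 : chkAll2 20 full.toTr s23 = true := by decide +kernel
theorem c24 : chkAll2 20 full.toTr s24 = true := by decide +kernel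
theorem c25 : chkAll2 20 full.toTr s25 = true := by decide +kernel
theorem c26 : chkAll2 20 full.toTr s26 = true := by decide +kernel
theorem c27 : chkAll2 20 full.toTr s27 = true := by decide +kernel
theorem c28 : chkAll2 20 full.toTr s28 = true := by decide +kernel
theorem c29 : chkAll2 20 full.toTr s29 = true := by decide +kernel
theorem c30 : chkAll2 20 full.toTr s30 = true := by decide +kernel
theorem c31 : chkAll2 20 full.toTr s31 = true := by decide +kernel

end Run7.h708.TF.Cert
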