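import Pool.Agent.Run7.h708.TF.Full
set_option autoImplicit false

/-! Checking the certificate, part 2 (generated) -/

namespace Run7.h708.TF.Cert

theorem c32 : chkAll2 20 full.toTr s32 = true := by decide +kernel
theorem c33 : chkAll2 20 full.toTr s33 = true := by decide +kernel
theorem c34 : chkAll2 20 full.toTr s34 = true := by decide +kernel
theorem c35 : chkAll2 20 full.toTr s35 = true := by decide +kernel
theorem c36 : chkAll2 20 full.toTr s36 = true := by decide +kernel
theorem c37 : chkAll2 20 full.toTr s37 = true := by decide +kernel
theorem c38 : chkAll2 20 full.toTr s38 = true := by decide +kernel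
theorem c39 : chkAll2 20 full.toTr s39 = true := by decide +kernel
theorem c40 : chkAll2 20 full.toTr s40 = true := by decide +kernel
theorem c41 : chkAll2 20 full.toTr s41 = true := by decide +kernel
theorem c42 : chkAll2 20 full.toTr s42 = true := by decide +kernel
theorem c43 : chkAll2 20 full.toTr s43 = true := by decide +kernel
theorem c44 : chkAll2 20 full.toTr s44 = true := by decide +kernel
theorem c45 : chkAll2 20 full.toTr s45 = true := by decide +kernel
theorem c46 : chkAll2 20 full.toTr s46 = true := by decide +kernel
theorem c47 : chkAll2 20 full.toTr s47 = true := by decide +kernel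
theorem c48 : chkAll2 20 full.toTr s48 = true := by decide +kernel
theorem c49 : chkAll2 20 full.toTr s49 = true := by decide +kernel
theorem c50 : chkAll2 20 full.toTr s50 = true := by decide +kernel
theorem c51 : chkAll2 20 full.toTr s51 = true := by decide +kernel
theorem c52 : chkAll2 20 full.toTr s52 = true := by decide +kernel
theorem c53 : chkAll2 20 full.toTr s53 = true := by decide +kernel
theorem c54 : chkAll2 20 full.toTr s54 = true := by decide +kernel
theorem c55 : chkAll2 20 full.toTr s55 = true := by decide +kernel
theorem c56 : chkAll2 20 full.toTr s56 = true := by decide +kernel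
theorem c57 : chkAll2 20 full.toTr s57 = true := by decide +kernel
theorem c58 : chkAll2 20 full.toTr s58 = true := by decide +kernel
theorem c59 : chkAll2 20 full.toTr s59 = true := by decide +kernel
theorem c60 : chkAll2 20 full.toTr s60 = true := by decide +kernel
theorem c61 : chkAll2 20 full.toTr s61 = true := by decide +kernel
theorem c62 : chkAll2 20 full.toTr s62 = true := by decide +kernel
theorem c63 : chkAll2 20 full.toTr s63 = true := by decide +kernel

end Run7.h708.TF.Cert
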