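import Pool.Agent.Run7.h708.TF.Full
set_option autoImplicit false

/-! Checking the certificate, part 3 (generated) -/

namespace Run7.h708.TF.Cert

theorem c64 : chkAll2 20 full.toTr s64 = true := by decide +kernel
theorem c65 : chkAll2 20 full.toTr s65 = true := by decide +kernel
theorem c66 : chkAll2 20 full.toTr s66 = true := by decide +kernel
theorem c67 : chkAll2 20 full.toTr s67 = true := by decide +kernel
theorem c68 : chkAll2 20 full.toTr s68 = true := by decide +kernel
theorem c69 : chkAll2 20 full.toTr s69 = true := by decide +kernel
theorem c70 : chkAll2 20 full.toTr s70 = true := by decide +kernel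
theorem c71 : chkAll2 20 full.toTr s71 = true := by decide +kernel
theorem c72 : chkAll2 20 full.toTr s72 = true := by decide +kernel
theorem c73 : chkAll2 20 full.toTr s73 = true := by decide +kernel
theorem c74 : chkAll2 20 full.toTr s74 = true := by decide +kernel
theorem c75 : chkAll2 20 full.toTr s75 = true := by decide +kernel
theorem c76 : chkAll2 20 full.toTr s76 = true := by decide +kernel
theorem c77 : chkAll2 20 full.toTr s77 = true := by decide +kernel
theorem c78 : chkAll2 20 full.toTr s78 = true := by decide +kernel
theorem c79 : chkAll2 20 full.toTr s79 = true := by decide +kernel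
theorem c80 : chkAll2 20 full.toTr s80 = true := by decide +kernel
theorem c81 : chkAll2 20 full.toTr s81 = true := by decide +kernel
theorem c82 : chkAll2 20 full.toTr s82 = true := by decide +kernel
theorem c83 : chkAll2 20 full.toTr s83 = true := by decide +kernel
theorem c84 : chkAll2 20 full.toTr s84 = true := by decide +kernel
theorem c85 : chkAll2 20 full.toTr s85 = true := by decide +kernel
theorem c86 : chkAll2 20 full.toTr s86 = true := by decide +kernel
theorem c87 : chkAll2 20 full.toTr s87 = true := by decide +kernel
theorem c88 : chkAll2 20 full.toTr s88 = true := by decide +kernel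
theorem c89 : chkAll2 20 full.toTr s89 = true := by decide +kernel
theorem c90 : chkAll2 20 full.toTr s90 = true := by decide +kernel
theorem c91 : chkAll2 20 full.toTr s91 = true := by decide +kernel
theorem c92 : chkAll2 20 full.toTr s92 = true := by decide +kernel
theorem c93 : chkAll2 20 full.toTr s93 = true := by decide +kernel
theorem c94 : chkAll2 20 full.toTr s94 = true := by decide +kernel
theorem c95 : chkAll2 20 full.toTr s95 = true := by decide +kernel

end Run7.h708.TF.Cert
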