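import Pool.Agent.Run7.h708.TF.Full
set_option autoImplicit false

/-! Checking the certificate, part 4 (generated) -/

namespace Run7.h708.TF.Cert

theorem c96 : chkAll2 20 full.toTr s96 = true := by decide +kernel
theorem c97 : chkAll2 20 full.toTr s97 = true := by decide +kernel
theorem c98 : chkAll2 20 full.toTr s98 = true := by decide +kernel
theorem c99 : chkAll2 20 full.toTr s99 = true := by decide +kernel
theorem c100 : chkAll2 20 full.toTr s100 = true := by decide +kernel
theorem c101 : chkAll2 20 full.toTr s101 = true := by decide +kernel
theorem c102 : chkAll2 20 full.toTr s102 = true := by decide +kernel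
theorem c103 : chkAll2 20 full.toTr s103 = true := by decide +kernel
theorem c104 : chkAll2 20 full.toTr s104 = true := by decide +kernel
theorem c105 : chkAll2 20 full.toTr s105 = true := by decide +kernel
theorem c106 : chkAll2 20 full.toTr s106 = true := by decide +kernel
theorem c107 : chkAll2 20 full.toTr s107 = true := by decide +kernel
theorem c108 : chkAll2 20 full.toTr s108 = true := by decide +kernel
theorem c109 : chkAll2 20 full.toTr s109 = true := by decide +kernel
theorem c110 : chkAll2 20 full.toTr s110 = true := by decide +kernel
theorem c111 : chkAll2 20 full.toTr s111 = true := by decide +kernel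
theorem c112 : chkAll2 20 full.toTr s112 = true := by decide +kernel
theorem c113 : chkAll2 20 full.toTr s113 = true := by decide +kernel
theorem c114 : chkAll2 20 full.toTr s114 = true := by decide +kernel
theorem c115 : chkAll2 20 full.toTr s115 = true := by decide +kernel
theorem c116 : chkAll2 20 full.toTr s116 = true := by decide +kernel
theorem c117 : chkAll2 20 full.toTr s117 = true := by decide +kernel
theorem c118 : chkAll2 20 full.toTr s118 = true := by decide +kernel
theorem c119 : chkAll2 20 full.toTr s119 = true := by decide +kernel
theorem c120 : chkAll2 20 full.toTr s120 = true := by decide +kernel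
theorem c121 : chkAll2 20 full.toTr s121 = true := by decide +kernel
theorem c122 : chkAll2 20 full.toTr s122 = true := by decide +kernel
theorem c123 : chkAll2 20 full.toTr s123 = true := by decide +kernel
theorem c124 : chkAll2 20 full.toTr s124 = true := by decide +kernel
theorem c125 : chkAll2 20 full.toTr s125 = true := by decide +kernel
theorem c126 : chkAll2 20 full.toTr s126 = true := by decide +kernel
theorem c127 : chkAll2 20 full.toTr s127 = true := by decide +kernel

end Run7.h708.TF.Cert
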