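import Mathlib
set_option autoImplicit false

/-!
# Toads and Frogs: definitions and the certificate checker
-/

namespace Run7.h708.TF

/-! ### Partizan games played on an arbitrary type of positions -/

/-- the moves of Left and of Right on positions of type `α` -/
structure Ruleset (α : Type) where
  left : α → α → Prop
  right : α → α → Prop

/-- the negative: Left and Right swap roles -/
def Ruleset.neg {α : Type} (R : Ruleset α) : Ruleset α where
  left := R.right
  right := R.left

/-- the disjunctive sum: a move is a move in exactly one component -/
def Ruleset.add {α β : Type} (R : Ruleset α) (S : Ruleset β) : Ruleset (α × β) where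
  left x y := (R.left x.1 y.1 ∧ x.2 = y.2) ∨ (x.1 = y.1 ∧ S.left x.2 y.2)
  right x y := (R.right x.1 y.1 ∧ x.2 = y.2) ∨ (x.1 = y.1 ∧ S.right x.2 y.2)

/-- the player with moves `mv` (the opponent having moves `op`) wins when moving first from `x`: there is
a move after which every reply of the opponent leads again to such a position (a player without a move
loses) -/
inductive WinsFirst {α : Type} (mv op : α → α → Prop) : α → Prop
  | intro (x y : α) (hxy : mv x y) (h : ∀ z, op y z → WinsFirst mv op z) : WinsFirst mv op x

/-- the second player wins: neither Left nor Right wins when moving first -/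
def Ruleset.SecondPlayerWins {α : Type} (R : Ruleset α) (x : α) : Prop :=
  ¬ WinsFirst R.left R.right x ∧ ¬ WinsFirst R.right R.left x

/-- equality of the values of the position `x` of `R` and of the position `y` of `S`: the difference is
a second-player win -/
def EqualValue {α β : Type} (R : Ruleset α) (x : α) (S : Ruleset β) (y : β) : Prop :=
  (R.add S.neg).SecondPlayerWins (x, y)

/-- the game `1 = {0 | }` at the position `true`; the position `false` is the zero game -/
def one : Ruleset Bool where
  left x y := x = true ∧ y = false
  right _ _ := False

/-- the game `* = {0 | 0}` at the position `true`; the position `false` is the zero game -/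
def star : Ruleset Bool where
  left x y := x = true ∧ y = false
  right x y := x = true ∧ y = false

/-! ### Toads and Frogs -/

/-- a square of the strip: empty, or holding a toad (Left's), or holding a frog (Right's) -/
inductive Sq
  | E | T | F
  deriving DecidableEq

open Sq

/-- Left slides a toad one square to the right, or jumps it over exactly one frog -/
inductive LMove : List Sq → List Sq → Prop
  | slide (u v : List Sq) : LMove (u ++ T :: E :: v) (u ++ E :: T :: v)
  | jump (u v : List Sq) : LMove (u ++ T :: F :: E :: v) (u ++ E :: F :: T :: v)

/-- Right slides a frog one square to the left, or jumps it over exactly one toad -/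
inductive RMove : List Sq → List Sq → Prop
  | slide (u v : List Sq) : RMove (u ++ E :: F :: v) (u ++ F :: E :: v)
  | jump (u v : List Sq) : RMove (u ++ E :: T :: F :: v) (u ++ F :: T :: E :: v)

/-- the rules of Toads and Frogs -/
def toadsAndFrogs : Ruleset (List Sq) where
  left := LMove
  right := RMove

/-- the position `T^a □^a F^(a-1)` -/
def start (a : ℕ) : List Sq :=
  List.replicate a T ++ List.replicate a E ++ List.replicate (a - 1) F

/-! ### Lists of options -/

/-- Left's move at the head of a word -/
def lhead : List Sq → List (List Sq)
  | T :: E :: v => [E :: T :: v]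
  | T :: F :: E :: v => [E :: F :: T :: v]
  | _ => []

/-- Right's move at the head of a word -/
def rhead : List Sq → List (List Sq)
  | E :: F :: v => [F :: E :: v]
  | E :: T :: F :: v => [F :: T :: E :: v]
  | _ => []

/-- list of Left's moves -/
def lms : List Sq → List (List Sq)
  | [] => []
  | x :: v => lhead (x :: v) ++ (lms v).map (x :: ·)

/-- list of Right's moves -/
def rms : List Sq → List (List Sq)
  | [] => []
  | x :: v => rhead (x :: v) ++ (rms v).map (x :: ·)

lemma LMove.cons {w w' : List Sq} (x : Sq) (h : LMove w w') : LMove (x :: w) (x :: w') := by
  cases h with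
  | slide u v => exact LMove.slide (x :: u) v
  | jump u v => exact LMove.jump (x :: u) v

lemma lms_sound : ∀ (w w' : List Sq), w' ∈ lms w → LMove w w' := by
  intro w
  induction w with
  | nil => intro w' h; simp [lms] at h
  | cons x v ih =>
    intro w' h
    have hr : ∀ w', w' ∈ (lms v).map (x :: ·) → LMove (x :: v) w' := by
      intro w' h
      rw [List.mem_map] at h
      obtain ⟨a, ha, rfl⟩ := h
      exact (ih a ha).cons x
    rw [lms, List.mem_append] at h
    rcases h with h | h
    · unfold lhead at h
      split at h
      · rename_i v' e
        rw [List.mem_singleton.1 h, e]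
        exact LMove.slide [] v'
      · rename_i v' e
        rw [List.mem_singleton.1 h, e]
        exact LMove.jump [] v'
      · simp at h
    · exact hr _ h

lemma rms_cons_mem {w w' : List Sq} (x : Sq) (h : w' ∈ rms w) : (x :: w') ∈ rms (x :: w) := by
  have hr : (x :: w') ∈ (rms w).map (x :: ·) := List.mem_map.2 ⟨w', h, rfl⟩
  rw [rms, List.mem_append]
  exact Or.inr hr

lemma rms_complete {w w' : List Sq} (h : RMove w w') : w' ∈ rms w := by
  cases h with
  | slide u v =>
    induction u with
    | nil => simp [rms, rhead]
    | cons x u ih => exact rms_cons_mem x ih
  | jump u v =>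
    induction u with
    | nil => simp [rms, rhead]
    | cons x u ih => exact rms_cons_mem x ih

/-! ### Counting -/

/-- number of empty squares -/
def cE : List Sq → ℕ
  | [] => 0
  | E :: v => cE v + 1
  | _ :: v => cE v

/-- number of frogs -/
def cF : List Sq → ℕ
  | [] => 0
  | F :: v => cF v + 1
  | _ :: v => cF v

/-- pairs (toad, later empty square) -/
def pTE : List Sq → ℕ
  | [] => 0
  | T :: v => pTE v + cE v
  | _ :: v => pTE v

/-- pairs (empty square, later frog): the number of slides Right has at most -/
def pEF : List Sq → ℕ
  | [] => 0
  | E :: v => pEF v + cF v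
  | _ :: v => pEF v

/-- pairs (toad, later frog) -/
def pTF : List Sq → ℕ
  | [] => 0
  | T :: v => pTF v + cF v
  | _ :: v => pTF v

/-- safe moves of Left: pairs (toad, later empty square) with no frog after the toad -/
def sf : List Sq → ℕ
  | [] => 0
  | T :: v => sf v + (if cF v = 0 then cE v else 0)
  | _ :: v => sf v

/-- termination measure -/
def mu (w : List Sq) : ℕ := pTE w + pEF w + 2 * pTF w

lemma LMove.counts {w w' : List Sq} (h : LMove w w') :
    w'.length = w.length ∧ cE w' = cE w ∧ cF w' = cF w ∧ mu w' < mu w := by
  cases h with
  | slide u v =>
    induction u with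
    | nil => simp [cE, cF, mu, pTE, pEF, pTF]
    | cons x u ih => cases x <;> simp [cE, cF, mu, pTE, pEF, pTF] at ih ⊢ <;> omega
  | jump u v =>
    induction u with
    | nil => simp [cE, cF, mu, pTE, pEF, pTF]; omega
    | cons x u ih => cases x <;> simp [cE, cF, mu, pTE, pEF, pTF] at ih ⊢ <;> omega

lemma RMove.counts {w w' : List Sq} (h : RMove w w') :
    w'.length = w.length ∧ cE w' = cE w ∧ cF w' = cF w ∧ mu w' < mu w ∧
      pEF w = pEF w' + 1 ∧ sf w ≤ sf w' := by
  cases h with
  | slide u v =>
    induction u with
    | nil => simp [cE, cF, mu, pTE, pEF, pTF, sf]; omega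
    | cons x u ih =>
      cases x <;> simp [cE, cF, mu, pTE, pEF, pTF, sf] at ih ⊢
      · omega
      · have h1 : cF (u ++ E :: F :: v) ≠ 0 := by
          clear ih
          induction u with
          | nil => simp [cF]
          | cons y u ih => cases y <;> simp [cF, ih]
        simp [h1]
        omega
      · omega
  | jump u v =>
    induction u with
    | nil => simp [cE, cF, mu, pTE, pEF, pTF, sf]; omega
    | cons x u ih =>
      cases x <;> simp [cE, cF, mu, pTE, pEF, pTF, sf] at ih ⊢
      · omega
      · have h1 : cF (u ++ E :: T :: F :: v) ≠ 0 := by
          clear ih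
          induction u with
          | nil => simp [cF]
          | cons y u ih => cases y <;> simp [cF, ih]
        simp [h1]
        omega
      · omega

/-- if Left has a safe move, she can use up exactly one of them -/
lemma exists_safe : ∀ w : List Sq, 0 < sf w →
    ∃ w', LMove w w' ∧ sf w' + 1 = sf w ∧ pEF w' = pEF w ∧ cE w' = cE w ∧ cF w' = cF w := by
  intro w
  induction w with
  | nil => intro h; simp [sf] at h
  | cons x v ih =>
    intro h
    by_cases hv : 0 < sf v
    · obtain ⟨w', h1, h2, h3, h4, h5⟩ := ih hv
      refine ⟨x :: w', h1.cons x, ?_⟩
      cases x <;> simp [cE, cF, pEF, sf, h3, h4, h5] <;> omega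
    · have hv0 : sf v = 0 := by omega
      cases x with
      | E => simp [sf] at h; omega
      | F => simp [sf] at h; omega
      | T =>
        by_cases hF : cF v = 0
        · simp [sf, hF, hv0] at h
          cases v with
          | nil => simp [cE] at h
          | cons y v' =>
            cases y with
            | E =>
              refine ⟨E :: T :: v', LMove.slide [] v', ?_⟩
              simp [cF] at hF
              simp [sf, cE, cF, pEF, hF]
              omega
            | T =>
              simp [cF] at hF
              simp [cE] at h
              simp [sf, hF] at hv0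
              omega
            | F => simp [cF] at hF
        · simp [sf, hF, hv0] at h

end Run7.h708.TF
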