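import Pool.Agent.Run7.h708.TF.Chk1
import Pool.Agent.Run7.h708.TF.Chk2
import Pool.Agent.Run7.h708.TF.Chk3
import Pool.Agent.Run7.h708.TF.Chk4
set_option autoImplicit false

/-! The whole certificate is correct (generated) -/

namespace Run7.h708.TF.Cert

theorem full_ok : chkAll2 20 full.toTr full = true :=
  (chkAll2_node (by decide +kernel) (chkAll2_node (by decide +kernel) (chkAll2_node (by decide +kernel) (chkAll2_node (by decide +kernel) (chkAll2_node (by decide +kernel) (chkAll2_node (by decide +kernel) (chkAll2_node (by decide +kernel) c0 c1) (chkAll2_node (by decide +kernel) c2 c3)) (chkAll2_node (by decide +kernel) (chkAll2_node (by decide +kernel) c4 c5) (chkAll2_node (by decide +kernel) c6 c7))) (chkAll2_node (by decide +kernel) (chkAll2_node (by decide +kernel) (chkAll2_node (by decide +kernel) c8 c9) (chkAll2_node (by decide +kernel) c10 c11)) (chkAll2_node (by decide +kernel) (chkAll2_node (by decide +kernel) c12 c13) (chkAll2_node (by decide +kernel) c14 c15)))) (chkAll2_node (by decide +kernel) (chkAll2_node (by decide +kernel) (chkAll2_node (by decide +kernel) (chkAll2_node (by decide +kernel) c16 c17) (chkAll2_node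 (by decide +kernel) c18 c19)) (chkAll2_node (by decide +kernel) (chkAll2_node (by decide +kernel) c20 c21) (chkAll2_node (by decide +kernel) c22 c23))) (chkAll2_node (by decide +kernel) (chkAll2_node (by decide +kernel) (chkAll2_node (by decide +kernel) c24 c25) (chkAll2_node (by decide +kernel) c26 c27)) (chkAll2_node (by decide +kernel) (chkAll2_node (by decide +kernel) c28 c29) (chkAll2_node (by decide +kernel) c30 c31))))) (chkAll2_node (by decide +kernel) (chkAll2_node (by decide +kernel) (chkAll2_node (by decide +kernel) (chkAll2_node (by decide +kernel) (chkAll2_node (by decide +kernel) c32 c33) (chkAll2_node (by decide +kernel) c34 c35)) (chkAll2_node (by decide +kernel) (chkAll2_node (by decide +kernel) c36 c37) (chkAll2_node (by decide +kernel) c38 c39))) (chkAll2_node (by decide +kernel) (chkAll2_node (by decide +kernel) (chkAll2_node (by decide +kernel) c40 c41) (chkAll2_node (by decide +kernel) c42 c43)) (chkAll2_node (by decide +kernel) (chkAll2_node (by decide +kernel) c44 c45) (chkAll2_node (by decide +kernel) c46 c47)))) (chkAll2_node (by decide +kernel) (chkAll2_node (by decide +kernel) (chkAll2_node (by decide +kernel)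 (chkAll2_node (by decide +kernel) c48 c49) (chkAll2_node (by decide +kernel) c50 c51)) (chkAll2_node (by decide +kernel) (chkAll2_node (by decide +kernel) c52 c53) (chkAll2_node (by decide +kernel) c54 c55))) (chkAll2_node (by decide +kernel) (chkAll2_node (by decide +kernel) (chkAll2_node (by decide +kernel) c56 c57) (chkAll2_node (by decide +kernel) c58 c59)) (chkAll2_node (by decide +kernel) (chkAll2_node (by decide +kernel) c60 c61) (chkAll2_node (by decide +kernel) c62 c63)))))) (chkAll2_node (by decide +kernel) (chkAll2_node (by decide +kernel) (chkAll2_node (by decide +kernel) (chkAll2_node (by decide +kernel) (chkAll2_node (by decide +kernel) (chkAll2_node (by decide +kernel) c64 c65) (chkAll2_node (by decide +kernel) c66 c67)) (chkAll2_node (by decide +kernel) (chkAll2_node (by decide +kernel) c68 c69) (chkAll2_node (by decide +kernel) c70 c71))) (chkAll2_node (by decide +kernel) (chkAll2_node (by decide +kernel) (chkAll2_node (by decide +kernel) c72 c73) (chkAll2_node (by decide +kernel) c74 c75)) (chkAll2_node (by decide +kernel) (chkAll2_node (by decide +kernel) c76 c77) (chkAll2_node (by decide +kernel) c78 c79)))) (chkAll2_node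 (by decide +kernel) (chkAll2_node (by decide +kernel) (chkAll2_node (by decide +kernel) (chkAll2_node (by decide +kernel) c80 c81) (chkAll2_node (by decide +kernel) c82 c83)) (chkAll2_node (by decide +kernel) (chkAll2_node (by decide +kernel) c84 c85) (chkAll2_node (by decide +kernel) c86 c87))) (chkAll2_node (by decide +kernel) (chkAll2_node (by decide +kernel) (chkAll2_node (by decide +kernel) c88 c89) (chkAll2_node (by decide +kernel) c90 c91)) (chkAll2_node (by decide +kernel) (chkAll2_node (by decide +kernel) c92 c93) (chkAll2_node (by decide +kernel) c94 c95))))) (chkAll2_node (by decide +kernel) (chkAll2_node (by decide +kernel) (chkAll2_node (by decide +kernel) (chkAll2_node (by decide +kernel) (chkAll2_node (by decide +kernel) c96 c97) (chkAll2_node (by decide +kernel) c98 c99)) (chkAll2_node (by decide +kernel) (chkAll2_node (by decide +kernel) c100 c101) (chkAll2_node (by decide +kernel) c102 c103))) (chkAll2_node (by decide +kernel) (chkAll2_node (by decide +kernel) (chkAll2_node (by decide +kernel) c104 c105) (chkAll2_node (by decide +kernel) c106 c107)) (chkAll2_node (by decide +kernel) (chkAll2_node (by decide +kernel)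 c108 c109) (chkAll2_node (by decide +kernel) c110 c111)))) (chkAll2_node (by decide +kernel) (chkAll2_node (by decide +kernel) (chkAll2_node (by decide +kernel) (chkAll2_node (by decide +kernel) c112 c113) (chkAll2_node (by decide +kernel) c114 c115)) (chkAll2_node (by decide +kernel) (chkAll2_node (by decide +kernel) c116 c117) (chkAll2_node (by decide +kernel) c118 c119))) (chkAll2_node (by decide +kernel) (chkAll2_node (by decide +kernel) (chkAll2_node (by decide +kernel) c120 c121) (chkAll2_node (by decide +kernel) c122 c123)) (chkAll2_node (by decide +kernel) (chkAll2_node (by decide +kernel) c124 c125) (chkAll2_node (by decide +kernel) c126 c127)))))))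

end Run7.h708.TF.Cert
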